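import Pool.Agent.helper62.VQ.SpecF

/-!
# Row `vqe:PCF` (MP_07c750): close potentials have close fields
-/

set_option autoImplicit false

open scoped MatrixGroups ContDiff Topology UpperHalfPlane
open UpperHalfPlane MeasureTheory Filter Set

namespace Pool.Agent.VQE

open Pool.Agent.RS

/-- the denominator of the action does not vanish -/
theorem PCF_den (g : SL(2, ℝ)) (z : ℂ) (hz : 0 < z.im) : ((g.1 1 0 : ℝ) : ℂ) * z + ((g.1 1 1 : ℝ) : ℂ) ≠ 0 := by
  intro h
  have h1 := congrArg Complex.im h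
  have h2 := congrArg Complex.re h
  simp only [Complex.add_im, Complex.mul_im, Complex.ofReal_re, Complex.ofReal_im,
    zero_mul, add_zero, Complex.zero_im, Complex.add_re, Complex.mul_re, sub_zero, Complex.zero_re] at h1 h2
  have hc : g.1 1 0 = 0 := by
    rcases mul_eq_zero.1 h1 with h3 | h3
    · exact h3
    · exact absurd h3 hz.ne'
  have ha : g.1 1 1 = 0 := by
    rw [hc] at h2
    linarith
  have hdet := g.2
  rw [Matrix.det_fin_two, ha, hc] at hdet
  simp at hdet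

/-- the disc coordinate is differentiable at `0` -/
theorem PCF_cdi (g : SL(2, ℝ)) : DifferentiableAt ℝ (fun v : ℂ => ((g • VQ.cdi v : ℍ) : ℂ)) 0 := by
  have hw : ContinuousAt (fun v : ℂ => Complex.I * (2 + v) / (2 - v)) 0 := by
    refine ContinuousAt.div (by fun_prop) (by fun_prop) (by norm_num)
  have hw0 : Complex.I * (2 + 0) / (2 - 0) = Complex.I := by
    norm_num
  have hpos : ∀ᶠ v : ℂ in 𝓝 0, 0 < (Complex.I * (2 + v) / (2 - v)).im := by
    have h1 : ContinuousAt (fun v : ℂ => (Complex.I * (2 + v) / (2 - v)).im) 0 :=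
      Complex.continuous_im.continuousAt.comp hw
    refine h1.eventually (lt_mem_nhds ?_)
    show 0 < (Complex.I * (2 + 0) / (2 - 0)).im
    rw [hw0]
    norm_num
  have hev : (fun v : ℂ => ((g • VQ.cdi v : ℍ) : ℂ)) =ᶠ[𝓝 0] fun v =>
      (((g.1 0 0 : ℝ) : ℂ) * (Complex.I * (2 + v) / (2 - v)) + ((g.1 0 1 : ℝ) : ℂ)) /
        (((g.1 1 0 : ℝ) : ℂ) * (Complex.I * (2 + v) / (2 - v)) + ((g.1 1 1 : ℝ) : ℂ)) := by
    filter_upwards [hpos] with v hv
    have h1 : ((VQ.cdi v : ℍ) : ℂ) = Complex.I * (2 + v) / (2 - v) := by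
      unfold VQ.cdi
      rw [ofComplex_apply_of_im_pos hv]
    rw [coe_specialLinearGroup_apply, h1]
    rfl
  refine DifferentiableAt.congr_of_eventuallyEq ?_ hev
  have hd : DifferentiableAt ℂ (fun v : ℂ => Complex.I * (2 + v) / (2 - v)) 0 := by
    refine DifferentiableAt.div (by fun_prop) (by fun_prop) (by norm_num)
  have hc : DifferentiableAt ℂ (fun v : ℂ =>
      (((g.1 0 0 : ℝ) : ℂ) * (Complex.I * (2 + v) / (2 - v)) + ((g.1 0 1 : ℝ) : ℂ)) /
        (((g.1 1 0 : ℝ) : ℂ) * (Complex.I * (2 + v) / (2 - v)) + ((g.1 1 1 : ℝ) : ℂ))) 0 := by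
    refine DifferentiableAt.div ((hd.const_mul _).add_const _) ((hd.const_mul _).add_const _) ?_
    rw [hw0]
    exact PCF_den g Complex.I (by norm_num)
  exact hc.restrictScalars ℝ

/-- the potential in the disc coordinate is differentiable at `0` -/
theorem PCF_diff (U : ℍ → ℝ) (hU : QU.CD ∞ U) (g : SL(2, ℝ)) : DifferentiableAt ℝ (VQ.Ug U g) 0 := by
  have h1 : VQ.Ug U g = (QU.onC U) ∘ fun v : ℂ => ((g • VQ.cdi v : ℍ) : ℂ) := by
    funext v
    unfold VQ.Ug QU.onC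
    rw [Function.comp_apply, ofComplex_apply]
  rw [h1]
  refine DifferentiableAt.comp 0 ?_ (PCF_cdi g)
  have hopen : IsOpen {w : ℂ | 0 < w.im} := isOpen_lt continuous_const Complex.continuous_im
  exact ((hU.differentiableOn (by simp)) _ (g • VQ.cdi 0).im_pos).differentiableAt
    (hopen.mem_nhds (g • VQ.cdi 0).im_pos)

theorem PCF_cdi0 : VQ.cdi 0 = UpperHalfPlane.I := by
  unfold VQ.cdi
  have h1 : Complex.I * (2 + 0) / (2 - 0) = ((UpperHalfPlane.I : ℍ) : ℂ) := by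
    rw [UpperHalfPlane.coe_I]
    norm_num
  rw [h1, ofComplex_apply]

theorem PCF_sqrt (x y : ℝ) (hx : 1 / 4 ≤ x) (hy : 1 / 4 ≤ y) : |Real.sqrt x - Real.sqrt y| ≤ |x - y| := by
  have h1 : 1 / 2 ≤ Real.sqrt x := Real.le_sqrt_of_sq_le (by norm_num; linarith)
  have h2 : 1 / 2 ≤ Real.sqrt y := Real.le_sqrt_of_sq_le (by norm_num; linarith)
  have h3 : x - y = (Real.sqrt x - Real.sqrt y) * (Real.sqrt x + Real.sqrt y) := by
    nlinarith [Real.sq_sqrt (show (0 : ℝ) ≤ x by linarith), Real.sq_sqrt (show (0 : ℝ) ≤ y by linarith)]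
  rw [h3, abs_mul, abs_of_nonneg (show 0 ≤ Real.sqrt x + Real.sqrt y by linarith)]
  have h4 := abs_nonneg (Real.sqrt x - Real.sqrt y)
  nlinarith

theorem PCF_proof (_h1 : NMB_stmt) : PCF_stmt := by
  intro Γ δ s E B U U' hδ hδ1 hs hs1 hE hU hU' hd g
  have hu0 : VQ.Ug U g 0 = U (g • UpperHalfPlane.I) := by
    unfold VQ.Ug
    rw [PCF_cdi0]
  have hu0' : VQ.Ug U' g 0 = U' (g • UpperHalfPlane.I) := by
    unfold VQ.Ug
    rw [PCF_cdi0]
  have e0 := hd g 0 (by norm_num)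
  have e1 := hd g 1 (by norm_num)
  have a0 := hU.near g 0 (by simp) 0 (by norm_num)
  have a1 := hU.near g 0 (by simp) 1 (by norm_num)
  have b0 := hU'.near g 0 (by simp) 0 (by norm_num)
  rw [norm_iteratedFDeriv_zero, Real.norm_eq_abs] at e0 a0 b0
  rw [norm_iteratedFDeriv_one] at e1 a1
  rw [hu0, hu0'] at e0
  rw [hu0] at a0
  rw [hu0'] at b0
  rw [fderiv_sub_const] at a1
  rw [fderiv_fun_sub (PCF_diff U hU.smooth g) (PCF_diff U' hU'.smooth g)] at e1
  have hn : |VQ.n2 U g| ≤ δ := by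
    unfold VQ.n2
    have h1 := (fderiv ℝ (VQ.Ug U g) 0).le_opNorm Complex.I
    rw [Complex.norm_I, mul_one, Real.norm_eq_abs] at h1
    exact h1.trans a1
  have hnn : |VQ.n2 U g - VQ.n2 U' g| ≤ s := by
    unfold VQ.n2
    have h1 := (fderiv ℝ (VQ.Ug U g) 0 - fderiv ℝ (VQ.Ug U' g) 0).le_opNorm Complex.I
    rw [Complex.norm_I, mul_one, Real.norm_eq_abs] at h1
    exact h1.trans e1
  have hE' := abs_le.1 hE
  have a0' := abs_le.1 a0
  have b0' := abs_le.1 b0
  have e0' := abs_le.1 e0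
  set u := U (g • UpperHalfPlane.I) with hu
  set u' := U' (g • UpperHalfPlane.I) with hu'
  have hr : VQ.rho U 0 g = Real.sqrt u := by
    unfold VQ.rho
    rw [mul_zero, add_zero]
  have hr' : VQ.rho U' E g = Real.sqrt (u' + 2 * E) := rfl
  have hρ : 1 / 2 ≤ Real.sqrt u := Real.le_sqrt_of_sq_le (by norm_num; linarith)
  have hρ' : 1 / 2 ≤ Real.sqrt (u' + 2 * E) := Real.le_sqrt_of_sq_le (by norm_num; linarith)
  have hdiff : |Real.sqrt (u' + 2 * E) - Real.sqrt u| ≤ 3 * s := by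
    refine (PCF_sqrt _ _ (by linarith) (by linarith)).trans ?_
    rw [abs_le]
    constructor <;> linarith
  refine ⟨?_, ?_⟩
  · rw [hr, hr']
    linarith
  · unfold VQ.kap
    rw [hr, hr']
    set ρ := Real.sqrt u with hρd
    set ρ' := Real.sqrt (u' + 2 * E) with hρd'
    set n := VQ.n2 U g with hnd
    set n' := VQ.n2 U' g with hnd'
    have hρ0 : 0 < ρ := by linarith
    have hρ0' : 0 < ρ' := by linarith
    have key : -(n' / (2 * ρ')) / 2 - -(n / (2 * ρ)) / 2 = (n * (ρ' - ρ) + ρ * (n - n')) / (4 * ρ * ρ') := by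
      field_simp
      ring
    rw [key, abs_div, abs_of_pos (show 0 < 4 * ρ * ρ' by positivity), div_le_iff₀ (by positivity)]
    have h1 : |n * (ρ' - ρ) + ρ * (n - n')| ≤ δ * (3 * s) + ρ * s := by
      refine (abs_add_le _ _).trans ?_
      rw [abs_mul, abs_mul, abs_of_pos hρ0]
      exact add_le_add (mul_le_mul hn hdiff (abs_nonneg _) hδ) (mul_le_mul_of_nonneg_left hnn hρ0.le)
    refine h1.trans ?_
    have h2 : 1 / 2 * ρ ≤ ρ' * ρ := mul_le_mul_of_nonneg_right hρ' hρ0.le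
    have h3 : δ * (3 * s) ≤ s / 10 := by nlinarith
    have h4 : s * (1 / 2 * ρ) ≤ s * (ρ' * ρ) := mul_le_mul_of_nonneg_left h2 hs
    nlinarith

end Pool.Agent.VQE
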